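import Mathlib

/-!
# Case B of the Lorenz theorem (MP_ea8a26): sequences

The letter `T_r = σ₁ ⋯ σ_{r-1}` acts on sequences `a : ℕ → ℂ` by
`a j ↦ a (j+1) - t^j a 1` for `j < r` and `a j ↦ a j` for `r ≤ j`.
-/

namespace Pool.Agent.Helper95.LZ

/-- the action of the letter `T_r` on sequences -/
def T (t : ℂ) (r : ℕ) (a : ℕ → ℂ) : ℕ → ℂ :=
  fun j => if j < r then a (j + 1) - t ^ j * a 1 else a j

/-- the letters of the list act one after the other, the first letter of the list first -/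
def run (t : ℂ) (l : List ℕ) (a : ℕ → ℂ) : ℕ → ℂ := l.foldl (fun a r => T t r a) a

/-- the differences `a (j+1) - t a j` -/
def D (t : ℂ) (a : ℕ → ℂ) (j : ℕ) : ℂ := a (j + 1) - t * a j

@[simp] theorem run_nil (t : ℂ) (a : ℕ → ℂ) : run t [] a = a := rfl

@[simp] theorem run_cons (t : ℂ) (r : ℕ) (l : List ℕ) (a : ℕ → ℂ) :
    run t (r :: l) a = run t l (T t r a) := rfl

theorem run_append (t : ℂ) (l l' : List ℕ) (a : ℕ → ℂ) :
    run t (l ++ l') a = run t l' (run t l a) := by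
  simp [run, List.foldl_append]

theorem T_zero {t : ℂ} {r : ℕ} {a : ℕ → ℂ} (h0 : a 0 = 0) : T t r a 0 = 0 := by
  unfold T
  split_ifs with h
  · simp
  · exact h0

theorem T_of_le {t : ℂ} {r j : ℕ} {a : ℕ → ℂ} (h : r ≤ j) : T t r a j = a j := by
  unfold T
  rw [if_neg (by omega)]

theorem T_of_lt {t : ℂ} {r j : ℕ} {a : ℕ → ℂ} (h : j < r) :
    T t r a j = a (j + 1) - t ^ j * a 1 := by
  unfold T
  rw [if_pos h]

theorem D_T_lt {t : ℂ} {r j : ℕ} {a : ℕ → ℂ} (h : j + 1 < r) :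
    D t (T t r a) j = D t a (j + 1) := by
  unfold D
  rw [T_of_lt h, T_of_lt (by omega)]
  ring

theorem D_T_eq {t : ℂ} {r : ℕ} {a : ℕ → ℂ} :
    D t (T t (r + 1) a) r = (1 - t) * a (r + 1) + t ^ (r + 1) * a 1 := by
  unfold D
  rw [T_of_le (le_refl _), T_of_lt (by omega)]
  ring

theorem D_T_gt {t : ℂ} {r j : ℕ} {a : ℕ → ℂ} (h : r ≤ j) :
    D t (T t r a) j = D t a j := by
  unfold D
  rw [T_of_le h, T_of_le (by omega)]

theorem D_zero {t : ℂ} {a : ℕ → ℂ} (h0 : a 0 = 0) : D t a 0 = a 1 := by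
  simp [D, h0]

/-- a bound of the differences bounds the values -/
theorem norm_le_of_D {t : ℂ} {N : ℝ} {n : ℕ} {a : ℕ → ℂ} (ht : ‖t‖ < 1) (h0 : a 0 = 0)
    (hD : ∀ j < n, ‖D t a j‖ ≤ N) : ∀ j ≤ n, (1 - ‖t‖) * ‖a j‖ ≤ N * (1 - ‖t‖ ^ j) := by
  intro j
  induction j with
  | zero => intro _; simp [h0]
  | succ j ih =>
    intro hj
    have h1 := ih (by omega)
    have h2 := hD j (by omega)
    have h3 : a (j + 1) = D t a j + t * a j := by unfold D; ring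
    have h4 : ‖a (j + 1)‖ ≤ N + ‖t‖ * ‖a j‖ := by
      rw [h3]
      refine (norm_add_le _ _).trans ?_
      rw [norm_mul]
      linarith
    have h5 : (1 - ‖t‖) * ‖a (j + 1)‖ ≤ (1 - ‖t‖) * (N + ‖t‖ * ‖a j‖) :=
      mul_le_mul_of_nonneg_left h4 (by linarith)
    have h6 : ‖t‖ * ((1 - ‖t‖) * ‖a j‖) ≤ ‖t‖ * (N * (1 - ‖t‖ ^ j)) :=
      mul_le_mul_of_nonneg_left h1 (norm_nonneg _)
    calc (1 - ‖t‖) * ‖a (j + 1)‖ ≤ (1 - ‖t‖) * (N + ‖t‖ * ‖a j‖) := h5
      _ = (1 - ‖t‖) * N + ‖t‖ * ((1 - ‖t‖) * ‖a j‖) := by ring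
      _ ≤ (1 - ‖t‖) * N + ‖t‖ * (N * (1 - ‖t‖ ^ j)) := by linarith
      _ = N * (1 - ‖t‖ ^ (j + 1)) := by ring

theorem run_aux {t : ℂ} {N κ : ℝ} {n : ℕ} {a0 : ℕ → ℂ}
    (hκ : ‖1 - t‖ ≤ κ * (1 - ‖t‖)) (hκ0 : 0 ≤ κ)
    (hv : ∀ j ≤ n, (1 - ‖t‖) * ‖a0 j‖ ≤ N * (1 - ‖t‖ ^ j)) :
    ∀ (l : List ℕ) (p : ℕ) (a : ℕ → ℂ), l.Pairwise (· ≤ ·) →
      (∀ r ∈ l, p ≤ r ∧ 1 ≤ r ∧ r ≤ n) → a 0 = 0 → (∀ j, p ≤ j → a j = a0 j) →
      (∀ j < n, ‖D t a j‖ ≤ κ * N) →
      ∀ j < n, ‖D t (run t l a) j‖ ≤ κ * N := by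
  intro l
  induction l with
  | nil => intro p a _ _ _ _ h j hj; exact h j hj
  | cons r l ih =>
    intro p a hs hb h0 hp hD
    rw [List.pairwise_cons] at hs
    obtain ⟨hpr, h1r, hrn⟩ := hb r (by simp)
    rw [run_cons]
    refine ih r (T t r a) hs.2 ?_ (T_zero h0) ?_ ?_
    · intro s hsl
      exact ⟨hs.1 s hsl, (hb s (by simp [hsl])).2⟩
    · intro j hj
      rw [T_of_le hj]
      exact hp j (hpr.trans hj)
    · intro j hj
      rcases lt_trichotomy (j + 1) r with h | h | h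
      · rw [D_T_lt h]
        exact hD _ (by omega)
      · subst h
        rw [D_T_eq]
        have e1 : a (j + 1) = a0 (j + 1) := hp _ hpr
        have e2 : ‖a 1‖ ≤ κ * N := by
          have := hD 0 (by omega)
          rwa [D_zero h0] at this
        have e3 : ‖(1 - t) * a (j + 1)‖ ≤ κ * (N * (1 - ‖t‖ ^ (j + 1))) := by
          rw [norm_mul, e1]
          calc ‖1 - t‖ * ‖a0 (j + 1)‖ ≤ κ * (1 - ‖t‖) * ‖a0 (j + 1)‖ :=
                mul_le_mul_of_nonneg_right hκ (norm_nonneg _)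
            _ = κ * ((1 - ‖t‖) * ‖a0 (j + 1)‖) := by ring
            _ ≤ κ * (N * (1 - ‖t‖ ^ (j + 1))) := mul_le_mul_of_nonneg_left (hv _ hrn) hκ0
        have e4 : ‖t ^ (j + 1) * a 1‖ ≤ ‖t‖ ^ (j + 1) * (κ * N) := by
          rw [norm_mul, norm_pow]
          exact mul_le_mul_of_nonneg_left e2 (by positivity)
        calc ‖(1 - t) * a (j + 1) + t ^ (j + 1) * a 1‖
            ≤ ‖(1 - t) * a (j + 1)‖ + ‖t ^ (j + 1) * a 1‖ := norm_add_le _ _
          _ ≤ κ * (N * (1 - ‖t‖ ^ (j + 1))) + ‖t‖ ^ (j + 1) * (κ * N) := add_le_add e3 e4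
          _ = κ * N := by ring
      · rw [D_T_gt (by omega)]
        exact hD j hj

/-- a nondecreasing run multiplies the bound of the differences by at most `κ` -/
theorem run_bound {t : ℂ} {N κ : ℝ} {n : ℕ} (ht : ‖t‖ < 1) (hN : 0 ≤ N)
    (hκ : ‖1 - t‖ ≤ κ * (1 - ‖t‖)) (hκ1 : 1 ≤ κ) {l : List ℕ} (hs : l.Pairwise (· ≤ ·))
    (hb : ∀ r ∈ l, 1 ≤ r ∧ r ≤ n) {a : ℕ → ℂ} (h0 : a 0 = 0)
    (hD : ∀ j < n, ‖D t a j‖ ≤ N) : ∀ j < n, ‖D t (run t l a) j‖ ≤ κ * N := by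
  refine run_aux hκ (by linarith) (norm_le_of_D ht h0 hD) l 0 a hs ?_ h0 (fun _ _ => rfl) ?_
  · intro r hr
    exact ⟨Nat.zero_le _, hb r hr⟩
  · intro j hj
    refine (hD j hj).trans ?_
    nlinarith

theorem run_zero {t : ℂ} {l : List ℕ} : ∀ {a : ℕ → ℂ}, a 0 = 0 → run t l a 0 = 0 := by
  induction l with
  | nil => intro a h; exact h
  | cons r l ih => intro a h; rw [run_cons]; exact ih (T_zero h)

theorem run_last {t : ℂ} {n : ℕ} {l : List ℕ} :
    ∀ {a : ℕ → ℂ}, (∀ r ∈ l, r ≤ n) → run t l a n = a n := by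
  induction l with
  | nil => intro a _; rfl
  | cons r l ih =>
    intro a h
    rw [run_cons, ih (fun s hs => h s (by simp [hs])), T_of_le (h r (by simp))]

/-- `k` nondecreasing runs multiply the bound by at most `κ ^ k` -/
theorem runs_bound {t : ℂ} {κ : ℝ} {n : ℕ} (ht : ‖t‖ < 1)
    (hκ : ‖1 - t‖ ≤ κ * (1 - ‖t‖)) (hκ1 : 1 ≤ κ) (R : List (List ℕ)) :
    ∀ (N : ℝ) (a : ℕ → ℂ), 0 ≤ N → (∀ l ∈ R, l.Pairwise (· ≤ ·)) →
      (∀ l ∈ R, ∀ r ∈ l, 1 ≤ r ∧ r ≤ n) → a 0 = 0 → (∀ j < n, ‖D t a j‖ ≤ N) →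
      ∀ j < n, ‖D t (run t R.flatten a) j‖ ≤ κ ^ R.length * N := by
  induction R with
  | nil =>
    intro N a _ _ _ _ h j hj
    simpa using h j hj
  | cons l R ih =>
    intro N a hN hs hb h0 hD j hj
    rw [List.flatten_cons, run_append]
    have h1 := run_bound ht hN hκ hκ1 (hs l (by simp)) (hb l (by simp)) h0 hD
    have h2 := ih (κ * N) (run t l a) (by positivity) (fun l' hl' => hs l' (by simp [hl']))
      (fun l' hl' => hb l' (by simp [hl'])) (run_zero h0) h1 j hj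
    refine h2.trans (le_of_eq ?_)
    rw [List.length_cons]
    ring

theorem eq_zero_of_D {t : ℂ} {n : ℕ} {a : ℕ → ℂ} (h0 : a 0 = 0) (hD : ∀ j < n, D t a j = 0) :
    ∀ j ≤ n, a j = 0 := by
  intro j
  induction j with
  | zero => intro _; exact h0
  | succ j ih =>
    intro hj
    have h1 := hD j (by omega)
    unfold D at h1
    rw [ih (by omega)] at h1
    simpa using h1

/-- CASE B. -/
theorem caseB (t : ℂ) (n m : ℕ) (h1 : ‖t‖ < 1) (hk : ‖1 - t‖ * ‖t‖ ^ n < 1 - ‖t‖) (hm : 1 ≤ m)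
    (R : List (List ℕ)) (hR : R.length ≤ m) (hs : ∀ l ∈ R, l.Pairwise (· ≤ ·))
    (hb : ∀ l ∈ R, ∀ r ∈ l, 1 ≤ r ∧ r ≤ n) (a : ℕ → ℂ) (h0 : a 0 = 0)
    (fix : ∀ j ≤ n, t ^ (n * m) * run t R.flatten a j = a j) : ∀ j ≤ n, a j = 0 := by
  have hd : 0 < 1 - ‖t‖ := by linarith
  set κ : ℝ := ‖1 - t‖ / (1 - ‖t‖) with hκdef
  have hκ : ‖1 - t‖ ≤ κ * (1 - ‖t‖) := by
    rw [hκdef, div_mul_cancel₀ _ hd.ne']
  have hκ1 : 1 ≤ κ := by
    rw [hκdef, le_div_iff₀ hd, one_mul]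
    have := norm_sub_norm_le (1 : ℂ) t
    simpa using this
  have hc : κ * ‖t‖ ^ n < 1 := by
    rw [hκdef, div_mul_eq_mul_div, div_lt_one hd]
    exact hk
  rcases Nat.eq_zero_or_pos n with rfl | hn
  · intro j hj
    obtain rfl : j = 0 := by omega
    exact h0
  obtain ⟨j0, hj0, hmax⟩ := Finset.exists_max_image (Finset.range n) (fun j => ‖D t a j‖)
    ⟨0, Finset.mem_range.mpr hn⟩
  rw [Finset.mem_range] at hj0
  set N : ℝ := ‖D t a j0‖ with hN
  have hD : ∀ j < n, ‖D t a j‖ ≤ N := fun j hj => hmax j (Finset.mem_range.mpr hj)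
  have hb1 := runs_bound h1 hκ hκ1 R N a (norm_nonneg _) hs hb h0 hD j0 hj0
  have e1 : D t a j0 = t ^ (n * m) * D t (run t R.flatten a) j0 := by
    unfold D
    rw [← fix (j0 + 1) (by omega), ← fix j0 (by omega)]
    ring
  have e2 : N ≤ (κ * ‖t‖ ^ n) ^ m * N := by
    calc N = ‖t‖ ^ (n * m) * ‖D t (run t R.flatten a) j0‖ := by
          rw [hN, e1, norm_mul, norm_pow]
      _ ≤ ‖t‖ ^ (n * m) * (κ ^ R.length * N) := mul_le_mul_of_nonneg_left hb1 (by positivity)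
      _ ≤ ‖t‖ ^ (n * m) * (κ ^ m * N) := by
          refine mul_le_mul_of_nonneg_left ?_ (by positivity)
          exact mul_le_mul_of_nonneg_right (pow_le_pow_right₀ hκ1 hR) (norm_nonneg _)
      _ = (κ * ‖t‖ ^ n) ^ m * N := by rw [mul_pow, ← pow_mul]; ring
  have e3 : (κ * ‖t‖ ^ n) ^ m < 1 := pow_lt_one₀ (by positivity) hc (by omega)
  have hN0 : N = 0 := by
    by_contra hne
    have hpos : 0 < N := lt_of_le_of_ne (norm_nonneg _) (Ne.symm hne)
    nlinarith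
  refine eq_zero_of_D (t := t) h0 (fun j hj => ?_)
  have := hD j hj
  rw [hN0] at this
  exact norm_le_zero_iff.mp this

/-! ### the full twist -/

theorem run_replicate_succ (t : ℂ) (k n : ℕ) (a : ℕ → ℂ) :
    run t (List.replicate (k + 1) n) a = T t n (run t (List.replicate k n) a) := by
  rw [List.replicate_succ', run_append]
  rfl

theorem D_twist {t : ℂ} {n : ℕ} {a : ℕ → ℂ} (h0 : a 0 = 0) (hn : a n = 0) :
    ∀ k ≤ n, ∀ j < n, D t (run t (List.replicate k n) a) j =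
      if j + k < n then D t a (j + k) else t ^ n * D t a (j + k - n) := by
  intro k
  induction k with
  | zero => intro _ j hj; simp [hj]
  | succ k ih =>
    intro hk j hj
    rw [run_replicate_succ]
    have hb0 : run t (List.replicate k n) a 0 = 0 := run_zero h0
    have hbn : run t (List.replicate k n) a n = 0 := by
      rw [run_last (fun r hr => (List.eq_of_mem_replicate hr).le), hn]
    rcases Nat.lt_or_ge (j + 1) n with h | h
    · rw [D_T_lt h, ih (by omega) (j + 1) h]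
      have e : j + 1 + k = j + (k + 1) := by omega
      rw [e]
    · obtain rfl : n = j + 1 := by omega
      rw [D_T_eq, hbn, ← D_zero (t := t) hb0, ih (by omega) 0 (by omega)]
      rw [if_pos (by omega), if_neg (by omega)]
      have e : j + (k + 1) - (j + 1) = 0 + k := by omega
      rw [e]
      ring

theorem eq_of_D {t : ℂ} {n : ℕ} {a b : ℕ → ℂ} (h0 : a 0 = b 0)
    (hD : ∀ j < n, D t a j = D t b j) : ∀ j ≤ n, a j = b j := by
  intro j
  induction j with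
  | zero => intro _; exact h0
  | succ j ih =>
    intro hj
    have h1 := hD j (by omega)
    unfold D at h1
    rw [ih (by omega)] at h1
    simpa using h1

/-- the full twist `(T_n)^n` multiplies by `t^n` -/
theorem run_twist {t : ℂ} {n : ℕ} {a : ℕ → ℂ} (h0 : a 0 = 0) (hn : a n = 0) :
    ∀ j ≤ n, run t (List.replicate n n) a j = t ^ n * a j := by
  refine eq_of_D (t := t) (b := fun j => t ^ n * a j) ?_ ?_
  · rw [run_zero h0, h0, mul_zero]
  · intro j hj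
    rw [D_twist h0 hn n le_rfl j hj, if_neg (by omega), Nat.add_sub_cancel]
    unfold D
    ring

theorem T_congr {t : ℂ} {n r : ℕ} (hr : r ≤ n) {a b : ℕ → ℂ} (h : ∀ j ≤ n, a j = b j)
    (hn : 1 ≤ n) : ∀ j ≤ n, T t r a j = T t r b j := by
  intro j hj
  unfold T
  split_ifs with h'
  · rw [h (j + 1) (by omega), h 1 hn]
  · exact h j hj

theorem run_congr {t : ℂ} {n : ℕ} (hn : 1 ≤ n) {l : List ℕ} :
    ∀ {a b : ℕ → ℂ}, (∀ r ∈ l, r ≤ n) → (∀ j ≤ n, a j = b j) →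
      ∀ j ≤ n, run t l a j = run t l b j := by
  induction l with
  | nil => intro a b _ h; exact h
  | cons r l ih =>
    intro a b hl h
    exact ih (fun s hs => hl s (by simp [hs])) (T_congr (hl r (by simp)) h hn)

theorem T_smul {t c : ℂ} {r : ℕ} {a : ℕ → ℂ} :
    T t r (fun j => c * a j) = fun j => c * T t r a j := by
  funext j
  unfold T
  split_ifs
  · ring
  · rfl

theorem run_smul {t c : ℂ} {l : List ℕ} :
    ∀ {a : ℕ → ℂ}, run t l (fun j => c * a j) = fun j => c * run t l a j := by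
  induction l with
  | nil => intro a; rfl
  | cons r l ih => intro a; rw [run_cons, T_smul, ih]; rfl

/-- `m` full twists multiply by `t^(n m)` -/
theorem run_twists {t : ℂ} {n : ℕ} {a : ℕ → ℂ} (h0 : a 0 = 0) (hn : a n = 0) (m : ℕ) :
    ∀ j ≤ n, run t (List.replicate (n * m) n) a j = t ^ (n * m) * a j := by
  induction m with
  | zero => intro j _; simp
  | succ m ih =>
    intro j hj
    rcases Nat.eq_zero_or_pos n with rfl | hn1
    · simp
    have e : List.replicate (n * (m + 1)) n = List.replicate (n * m) n ++ List.replicate n n := by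
      rw [List.replicate_append_replicate, Nat.mul_succ]
    rw [e, run_append]
    have h1 : run t (List.replicate n n) (run t (List.replicate (n * m) n) a) j =
        t ^ n * run t (List.replicate (n * m) n) a j := by
      refine run_twist (run_zero h0) ?_ j hj
      rw [run_last (fun r hr => (List.eq_of_mem_replicate hr).le), hn]
    rw [h1, ih j hj]
    ring

/-- CASE B for the word itself: the runs, then `m` full twists -/
theorem caseB_word (t : ℂ) (n m : ℕ) (h1 : ‖t‖ < 1) (hk : ‖1 - t‖ * ‖t‖ ^ n < 1 - ‖t‖)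
    (hm : 1 ≤ m) (R : List (List ℕ)) (hR : R.length ≤ m) (hs : ∀ l ∈ R, l.Pairwise (· ≤ ·))
    (hb : ∀ l ∈ R, ∀ r ∈ l, 1 ≤ r ∧ r ≤ n) (a : ℕ → ℂ) (h0 : a 0 = 0) (hn : a n = 0)
    (fix : ∀ j ≤ n, run t (R.flatten ++ List.replicate (n * m) n) a j = a j) :
    ∀ j ≤ n, a j = 0 := by
  refine caseB t n m h1 hk hm R hR hs hb a h0 (fun j hj => ?_)
  rw [← fix j hj, run_append, run_twists (run_zero h0) ?_ m j hj]
  rw [run_last, hn]
  intro r hr
  rw [List.mem_flatten] at hr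
  obtain ⟨l, hl, hr⟩ := hr
  exact (hb l hl r hr).2

/-- CASE B, the full twists first -/
theorem caseB_word' (t : ℂ) (n m : ℕ) (h1 : ‖t‖ < 1) (hk : ‖1 - t‖ * ‖t‖ ^ n < 1 - ‖t‖)
    (hm : 1 ≤ m) (R : List (List ℕ)) (hR : R.length ≤ m) (hs : ∀ l ∈ R, l.Pairwise (· ≤ ·))
    (hb : ∀ l ∈ R, ∀ r ∈ l, 1 ≤ r ∧ r ≤ n) (a : ℕ → ℂ) (h0 : a 0 = 0) (hn : a n = 0)
    (fix : ∀ j ≤ n, run t (List.replicate (n * m) n ++ R.flatten) a j = a j) :
    ∀ j ≤ n, a j = 0 := by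
  rcases Nat.eq_zero_or_pos n with rfl | hn1
  · intro j hj
    obtain rfl : j = 0 := by omega
    exact h0
  refine caseB t n m h1 hk hm R hR hs hb a h0 (fun j hj => ?_)
  have hl : ∀ r ∈ R.flatten, r ≤ n := by
    intro r hr
    rw [List.mem_flatten] at hr
    obtain ⟨l, hl, hr⟩ := hr
    exact (hb l hl r hr).2
  rw [← fix j hj, run_append, run_congr hn1 hl (run_twists h0 hn m) j hj, run_smul]

end Pool.Agent.Helper95.LZ
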